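import Mathlib
import Pool.Agent.Lib.helper15.Fac7

namespace Pool.Agent.Results.MP_7607f9_an.NoFactor
open Set

/-- membership in `ℓ¹(D, ω)` -/
def Mem (D : Set ℚ) (ω : ℚ → ℝ) (f : D → ℂ) : Prop := Summable fun t => ‖f t‖ * ω t

/-- convolution: `(f * g)(t)` is the sum of `f s * g u` over `s, u ∈ D` with `s + u = t` -/
noncomputable def conv {D : Set ℚ} (f g : D → ℂ) (t : D) : ℂ :=
  ∑' p : {p : D × D // (p.1 : ℚ) + p.2 = t}, f p.1.1 * g p.1.2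

/-- every element of `ℓ¹(D, ω)` is a convolution product of two elements of `ℓ¹(D, ω)` -/
def Factors (D : Set ℚ) (ω : ℚ → ℝ) : Prop :=
  ∀ f : D → ℂ, Mem D ω f → ∃ b c : D → ℂ, Mem D ω b ∧ Mem D ω c ∧ ∀ t, f t = conv b c t

open Classical in
/-- truncation to `(0, 1]`, extended by zero -/
noncomputable def tr {D : Set ℚ} (b : D → ℂ) (q : ℚ) : ℂ :=
  if h : q ∈ D ∧ q ≤ 1 then b ⟨q, h.1⟩ else 0

lemma tr_zero {D : Set ℚ} (h0 : ∀ t ∈ D, 0 < t) (b : D → ℂ) (q : ℚ) (hq : q ≤ 0) : tr b q = 0 :=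
  dif_neg fun h => (h0 q h.1).not_ge hq

lemma tr_sum {D : Set ℚ} {ω : ℚ → ℝ} (hω : ∀ t, 0 ≤ ω t) {κ : ℝ} (hκ : 0 < κ)
    (h1 : ∀ t ∈ D, t ≤ 1 → κ ≤ ω t) {b : D → ℂ} (hb : Mem D ω b) :
    Summable fun q => ‖tr b q‖ := by
  refine (Subtype.val_injective (p := (· ∈ D))).summable_iff (fun t ht => ?_) |>.1 ?_
  · have : t ∉ D := by simpa using ht
    simp [tr, this]
  · refine (hb.mul_left κ⁻¹).of_nonneg_of_le (fun t => norm_nonneg _) fun t => ?_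
    simp only [Function.comp, tr]
    split_ifs with h
    · rw [le_inv_mul_iff₀ hκ, mul_comm]
      exact mul_le_mul_of_nonneg_left (h1 _ h.1 h.2) (norm_nonneg _)
    · rw [norm_zero]
      exact mul_nonneg (inv_nonneg.2 hκ.le) (mul_nonneg (norm_nonneg _) (hω _))

lemma conv_eq {D : Set ℚ} (h0 : ∀ t ∈ D, 0 < t) (hD : ∀ s, 0 < s → s ≤ 1 → s ∈ D)
    (b c : D → ℂ) (t : D) (ht : (t : ℚ) ≤ 1) :
    conv b c t = ∑' s, tr b s * tr c (t - s) := by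
  rw [← Function.Injective.tsum_eq (g := fun p : {p : D × D // (p.1 : ℚ) + p.2 = t} => (p.1.1 : ℚ))]
  · refine tsum_congr fun p => ?_
    have e := p.2
    have a1 := h0 _ p.1.1.2
    have a2 := h0 _ p.1.2.2
    rw [sub_eq_of_eq_add' e.symm, tr, tr, dif_pos ⟨p.1.1.2, by linarith⟩,
      dif_pos ⟨p.1.2.2, by linarith⟩]
  · rintro ⟨⟨a, b⟩, h⟩ ⟨⟨a', b'⟩, h'⟩ e
    simp only at e h h'
    exact Subtype.ext (Prod.ext (Subtype.ext e) (Subtype.ext (by simp only; linarith)))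
  · intro s hs
    have h1 : 0 < s := lt_of_not_ge fun h => hs (by simp [tr_zero h0 b s h])
    have h2 : 0 < t - s := lt_of_not_ge fun h => hs (by simp [tr_zero h0 c _ h])
    exact ⟨⟨(⟨s, hD s h1 (by linarith)⟩, ⟨t - s, hD _ h2 (by linarith)⟩), by simp⟩, rfl⟩

lemma gen {D : Set ℚ} {ω : ℚ → ℝ} (h0 : ∀ t ∈ D, 0 < t) (hD : ∀ s, 0 < s → s ≤ 1 → s ∈ D)
    (hω : ∀ t, 0 ≤ ω t) (hω1 : ∀ t, ω t ≤ 1) {κ : ℝ} (hκ : 0 < κ)
    (h1 : ∀ t ∈ D, t ≤ 1 → κ ≤ ω t) : ¬ Factors D ω := by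
  intro hF
  obtain ⟨a, a0, a1, a2⟩ := Pool.Agent.Lib.helper15.Fac.no_fact2
  obtain ⟨b, c, hb, hc, e⟩ := hF (fun t => a t) ((a1.subtype _).of_nonneg_of_le
    (fun t => mul_nonneg (norm_nonneg _) (hω t))
    fun t => mul_le_of_le_one_right (norm_nonneg _) (hω1 t))
  refine a2 (tr b) (tr c) (tr_zero h0 b) (tr_zero h0 c) (tr_sum hω hκ h1 hb) (tr_sum hω hκ h1 hc)
    fun q hq => ?_
  rcases le_or_gt q 0 with h | h
  · rw [a0 q h]
    refine ((tsum_congr fun r => ?_).trans tsum_zero).symm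
    rcases le_or_gt r 0 with hr | hr
    · rw [tr_zero h0 b r hr, zero_mul]
    · rw [tr_zero h0 c _ (by linarith), mul_zero]
  · exact (e ⟨q, hD q h hq⟩).trans (conv_eq h0 hD b c ⟨q, hD q h hq⟩ hq)

theorem result : ¬ Factors (Ioi 0) (fun _ => 1) ∧
    ¬ Factors (Ioi 0) (fun t => Real.exp (-(t : ℝ) ^ 2)) ∧ ¬ Factors (Ioc 0 1) (fun _ => 1) := by
  refine ⟨gen (fun _ h => h) (fun _ h _ => h) (fun _ => zero_le_one) (fun _ => le_rfl) one_pos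
    fun _ _ _ => le_rfl, gen (fun _ h => h) (fun _ h _ => h) (fun _ => (Real.exp_pos _).le)
    (fun t => Real.exp_le_one_iff.2 (by nlinarith [sq_nonneg (t : ℝ)])) (Real.exp_pos (-1))
    fun t ht h => Real.exp_le_exp.2 ?_, gen (fun _ h => h.1) (fun _ h h' => ⟨h, h'⟩)
    (fun _ => zero_le_one) (fun _ => le_rfl) one_pos fun _ _ _ => le_rfl⟩
  have a1 : (0 : ℝ) < t := by exact_mod_cast ht
  have a2 : (t : ℝ) ≤ 1 := by exact_mod_cast h
  nlinarith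

end Pool.Agent.Results.MP_7607f9_an.NoFactor
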