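import Mathlib
import Pool.Agent.Lib.helper16.WhD

namespace Pool.Agent.Results.MP_7607f9_an.Square
open Set

/-- membership in `ℓ¹(D, ω)` -/
def Mem (D : Set ℚ) (ω : ℚ → ℝ) (f : D → ℂ) : Prop := Summable fun t => ‖f t‖ * ω t

/-- convolution: `(f * g)(t)` is the sum of `f s * g u` over `s, u ∈ D` with `s + u = t` -/
noncomputable def conv {D : Set ℚ} (f g : D → ℂ) (t : D) : ℂ :=
  ∑' p : {p : D × D // (p.1 : ℚ) + p.2 = t}, f p.1.1 * g p.1.2

/-- every element of `ℓ¹(D, ω)` is a sum of `n` convolution products of elements of `ℓ¹(D, ω)` -/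
def SumOf (n : ℕ) (D : Set ℚ) (ω : ℚ → ℝ) : Prop :=
  ∀ f : D → ℂ, Mem D ω f → ∃ b c : Fin n → D → ℂ,
    (∀ i, Mem D ω (b i) ∧ Mem D ω (c i)) ∧ ∀ t, f t = ∑ i, conv (b i) (c i) t

open Pool.Agent.Lib.helper16 WhA WhB WhC WhD

lemma conv_eq {D : Set ℚ} (hD : ∀ t ∈ D, ∀ s, 0 < s → s < t → s ∈ D) {B C : ℚ → ℂ}
    (hB : ∀ s ≤ 0, B s = 0) (hC : ∀ s ≤ 0, C s = 0) (t : D) :
    conv (fun s : D => B s) (fun s : D => C s) t = ∑' s, B s * C (t - s) := by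
  rw [← Function.Injective.tsum_eq (g := fun p : {p : D × D // (p.1 : ℚ) + p.2 = t} => (p.1.1 : ℚ))]
  · exact tsum_congr fun p => by rw [sub_eq_of_eq_add' p.2.symm]
  · rintro ⟨⟨a, b⟩, h⟩ ⟨⟨a', b'⟩, h'⟩ e
    simp only at e h h'
    exact Subtype.ext (Prod.ext (Subtype.ext e) (Subtype.ext (by simp only; linarith)))
  · intro s hs
    have h1 : 0 < s := lt_of_not_ge fun h => hs (by simp [hB s h])
    have h2 : 0 < t - s := lt_of_not_ge fun h => hs (by simp [hC _ h])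
    exact ⟨⟨(⟨s, hD t t.2 s h1 (by linarith)⟩, ⟨t - s, hD t t.2 _ h2 (by linarith)⟩),
      by simp⟩, rfl⟩

lemma ext0 {D : Set ℚ} (φ : D → ℂ) (h : Summable fun t => ‖φ t‖) :
    ∃ F : L, (∀ t : D, F t = φ t) ∧ ∀ t ∉ D, F t = 0 := by
  classical
  obtain ⟨F, hF⟩ := WhA.mk (fun t => if h : t ∈ D then φ ⟨t, h⟩ else 0) (by
    refine (Subtype.val_injective (p := (· ∈ D))).summable_iff (fun t ht => ?_) |>.1 ?_
    · have : t ∉ D := by simpa using ht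
      simp [this]
    · exact h.congr fun t => by simp)
  exact ⟨F, fun t => by simp [hF], fun t ht => by simp [hF, ht]⟩

lemma mem_le {D : Set ℚ} {ω : ℚ → ℝ} (h0 : ∀ t, 0 ≤ ω t) (h1 : ∀ t, ω t ≤ 1) (g : L) :
    Mem D ω fun s => g s :=
  ((summ g).subtype _).of_nonneg_of_le (fun t => mul_nonneg (norm_nonneg _) (h0 t))
    fun t => mul_le_of_le_one_right (norm_nonneg _) (h1 t)

lemma unw {D : Set ℚ} (h0 : ∀ t ∈ D, 0 < t) (hD : ∀ t ∈ D, ∀ s, 0 < s → s < t → s ∈ D) :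
    SumOf 2 D fun _ => 1 := by
  intro f hf
  obtain ⟨F, h1, h2⟩ := ext0 f (by simpa [Mem] using hf)
  obtain ⟨g, h, g', h', a1, a2, a3, a4, a5⟩ := two (f := F) fun t ht =>
    h2 t fun h => (h0 t h).not_ge ht
  have m := mem_le (D := D) (ω := fun _ => 1) (fun _ => zero_le_one) fun _ => le_rfl
  refine ⟨![fun s => g s, fun s => g' s], ![fun s => h s, fun s => h' s], ?_, fun t => ?_⟩
  · simp [Fin.forall_fin_two, m]
  · simp only [Fin.sum_univ_two, Matrix.cons_val_zero, Matrix.cons_val_one]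
    rw [conv_eq hD a1 a2, conv_eq hD a3 a4, ← mul_apply, ← mul_apply, ← add_ap, ← a5, h1]

theorem result : SumOf 2 (Ioi 0) (fun _ => 1) ∧
    SumOf 4 (Ioi 0) (fun t => Real.exp (-(t : ℝ) ^ 2)) ∧ SumOf 2 (Ioc 0 1) (fun _ => 1) := by
  have hD : ∀ t ∈ Ioi (0 : ℚ), ∀ s, 0 < s → s < t → s ∈ Ioi (0 : ℚ) := fun _ _ _ h _ => h
  refine ⟨unw (fun _ h => h) hD, fun f hf => ?_,
    unw (fun _ h => h.1) fun t ht s h1 h2 => ⟨h1, h2.le.trans ht.2⟩⟩
  obtain ⟨F, h1, -⟩ := ext0 (fun t => (Real.exp (-((t : ℚ) : ℝ) ^ 2) : ℂ) * f t)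
    (hf.congr fun t => by
      rw [norm_mul, Complex.norm_real, Real.norm_eq_abs, abs_of_pos (Real.exp_pos _), mul_comm])
  obtain ⟨g, h, g', h', e, a1, a2, a3, a4, a5, a6⟩ := weighted F
  obtain ⟨p, q, p', q', b1, b2, b3, b4, b5⟩ := two a5
  have m := mem_le (D := Ioi 0) (ω := fun t => Real.exp (-(t : ℝ) ^ 2))
    (fun _ => (Real.exp_pos _).le) fun t => Real.exp_le_one_iff.2 (by nlinarith [sq_nonneg (t : ℝ)])
  have m2 : ∀ h : L, Mem (Ioi 0) (fun t => Real.exp (-(t : ℝ) ^ 2))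
      fun y => (Real.exp (((y : ℚ) : ℝ) ^ 2) : ℂ) * h y := fun h =>
    ((summ h).subtype _).congr fun y => by
      rw [norm_mul, Complex.norm_real, Real.norm_eq_abs, abs_of_pos (Real.exp_pos _),
        mul_right_comm, ← Real.exp_add]
      simp
  refine ⟨![fun y => (Real.exp (((y : ℚ) : ℝ) ^ 2) : ℂ) * h y,
    fun y => (Real.exp (((y : ℚ) : ℝ) ^ 2) : ℂ) * h' y, fun s => p s, fun s => p' s],
    ![fun s => g s, fun s => g' s, fun s => q s, fun s => q' s], fun i => ?_, fun t => ?_⟩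
  · fin_cases i
    exacts [⟨m2 h, m g⟩, ⟨m2 h', m g'⟩, ⟨m p, m q⟩, ⟨m p', m q'⟩]
  · have c1 := a6 t t.2
    rw [h1, ← mul_assoc, ← Complex.ofReal_mul, ← Real.exp_add, add_neg_cancel, Real.exp_zero,
      Complex.ofReal_one, one_mul, b5, add_ap, mul_apply, mul_apply, ← conv_eq hD b1 b2,
      ← conv_eq hD b3 b4,
      ← conv_eq hD (B := fun y => (Real.exp ((y : ℝ) ^ 2) : ℂ) * h y)
        (fun s hs => by rw [a2 s hs, mul_zero]) a1,
      ← conv_eq hD (B := fun y => (Real.exp ((y : ℝ) ^ 2) : ℂ) * h' y)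
        (fun s hs => by rw [a4 s hs, mul_zero]) a3] at c1
    rw [c1, Fin.sum_univ_four, ← add_assoc]
    rfl

end Pool.Agent.Results.MP_7607f9_an.Square
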